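import Pool.Agent.Q182.DeFin

/-!
# Graphs of groups with cyclic or virtually cyclic edge groups, balanced or not

`C` is any class of groups which contains the metabelian groups and has the closure properties
`ClosedA C`: the usual closure properties `ClosedE C` and closure under acylindrical actions on
trees. All of this is known for the class of the groups which satisfy the K-theoretic Farrell–Jones
conjecture with additive category coefficients and finite wreath products (solvable groups: Wegner,
acylindrical actions: Knopf).

Let `G` act without inversions on a tree with vertex stabilizers in `C`.

1. Suppose that the infinite edge stabilizers are cyclic. Let `z` have infinite order in the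
stabilizer of an edge at the vertex `v`, and let `NE T z v` be the subgroup of the vertex stabilizer
`G_v` generated by the stabilizers of the edges at `v` which are fixed by a power of `z`. If for each
`v` and `z` either `z` is balanced in `G` (powers of `z` which are conjugate in `G` have the same
absolute value of the exponent), or no power of `z` is in the commutator subgroup of `NE T z v`,
then `G` is in `C`. There are no conditions on the rest of `G_v`, and the graph of groups is
arbitrary. In particular the powers of `z` may be conjugate in `G_v` to other powers.

2. Suppose that the edge stabilizers are virtually cyclic. Then it suffices that for each `v` and `z`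
one of the following is true: `z` is balanced in `G`; no power of `z` is in the commutator subgroup
of the group `Kz z v` of the elements of `G_v` which commute with a power of `z`; `z` is balanced in
`G_v` and no power of `z` is in the commutator subgroup of the group `NzG T z v` generated by the
elements of `Kz z v` which fix an edge at `v` fixed by a power of `z`; `G_v` has a representation
over a field such that no power of `z` is mapped to a unipotent matrix, or such that the
characteristic is positive and the image of `z` has infinite order.

For example 2 covers arbitrary graphs of groups with virtually cyclic edge groups in which the
vertex groups are linear groups in positive characteristic (the characteristic may depend on the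
vertex), or hyperbolic or CAT(0) groups. In general these groups are not CAT(0), not relatively
hyperbolic and contain distorted cyclic subgroups. An example for 1 to which 2 does not apply: the
vertex group is the Heisenberg group over `ℤ[1/2]` extended by the automorphism
`(x, y) ↦ (2x, y)`, and `z` is a central element of the Heisenberg group, which is conjugate to its
square and a commutator of elements which commute with it.

Outline of the proof. By the tree of cylinders it suffices to treat the commensurator of `z`, so we
can assume that all edge stabilizers are commensurable with `⟨z⟩`. Let `N` be the normal subgroup
generated by the groups `NE T z v`. The logarithm with base `z` on the edge stabilizers extends to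
homomorphisms from the groups `NE T z v` to `ℚ` and from `N` to `ℚ`. The quotient by `N` acts on the
quotient tree with finite edge stabilizers. The preimages of its cyclic subgroups have homomorphisms
to metabelian groups which are injective on the edge stabilizers. The preimages `P = G_v N` of its
vertex stabilizers are mapped, injectively on the edge stabilizers, to a group `L` in `C` which
contains `G_v` and in which the elements of `G_v` have compatible roots of all orders which depend
equivariantly on the element: an iterated wreath product with cyclic groups. This map is given by
the inclusion on `G_v` and by the logarithms, with values in the roots, on the other vertex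
stabilizers.
-/

set_option autoImplicit false

namespace Pool.Agent.Results.MP_f7db47_al.CyclicEdgeDetection

open Q182.Cyl (ClosedA Est InfOrd)
open Q182.De (Bal Kz NzG NE LinDet)
open scoped commutatorElement

/-- Let `C` be a class of groups with the closure properties `ClosedA C` which contains all
metabelian groups. Let `G` be a group acting without inversions on a tree with all vertex
stabilizers in `C`.

1. If all edge stabilizers are finite or cyclic, and for each `z` of infinite order in the
stabilizer of an edge at `v` either `z` is balanced in `G` or no positive power of `z` is in the
commutator subgroup of `NE T z v`, then `G` is in `C`.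

2. If all edge stabilizers are virtually cyclic, and for each `z` of infinite order in the
stabilizer of an edge at `v` either `z` is balanced in `G`, or no positive power of `z` is in the
commutator subgroup of `Kz z v`, or `z` is balanced in the stabilizer of `v` and no positive power of
`z` is in the commutator subgroup of `NzG T z v`, or `LinDet z v`, then `G` is in `C`. -/
theorem result (C : ∀ (G : Type) [Group G], Prop) (hC : ClosedA C)
    (hmet : ∀ (G : Type) [Group G], derivedSeries G 2 = ⊥ → C G)
    (G V : Type) [Group G] [MulAction G V] (T : SimpleGraph V) (hT : T.IsTree)
    (hadj : ∀ (g : G) (v w : V), T.Adj v w → T.Adj (g • v) (g • w))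
    (hinv : ∀ (g : G) (v w : V), T.Adj v w → ¬ (g • v = w ∧ g • w = v))
    (hst : ∀ v : V, C (MulAction.stabilizer G v)) :
    ((∀ v w : V, T.Adj v w → Finite (Est G v w) ∨ IsCyclic (Est G v w)) →
      (∀ v w : V, T.Adj v w → ∀ z ∈ Est G v w, InfOrd z → (∀ g : G, Bal z g) ∨
        ∀ n : ℕ, 0 < n → z ^ n ∉ ⁅NE T z v, NE T z v⁆) → C G) ∧
    ((∀ v w : V, T.Adj v w →
        ∃ c ∈ Est G v w, (Subgroup.zpowers c).relIndex (Est G v w) ≠ 0) →
      (∀ v w : V, T.Adj v w → ∀ z ∈ Est G v w, InfOrd z → (∀ g : G, Bal z g) ∨
        (∀ n : ℕ, 0 < n → z ^ n ∉ ⁅Kz z v, Kz z v⁆) ∨
        ((∀ g : G, g • v = v → Bal z g) ∧ ∀ n : ℕ, 0 < n → z ^ n ∉ ⁅NzG T z v, NzG T z v⁆) ∨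
        LinDet z v) → C G) :=
  ⟨fun h1 h2 => Q182.De.cyl_main2 hC hmet ⟨hT, hadj, hinv⟩ h1 hst h2,
    fun h1 h2 => Q182.De.vc_main hC hmet ⟨hT, hadj, hinv⟩ h1 hst h2⟩

end Pool.Agent.Results.MP_f7db47_al.CyclicEdgeDetection
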