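import Pool.Agent.Q171.KV.Fun
import Pool.Agent.Y477.IW.GP

/-!
Let the group `Γ` act on a group `N` and on a set `X` with finite point stabilizers, and let `e_T`
(`T ⊆ X`) be compatible retractions of `N` (for instance, `N` the graph product of copies of any
group over an invariant graph with vertex set `X`; the restricted wreath product `P ≀ Γ` is the case
of the complete graph on `X = Γ`). Let `S` be any ring and `K(G) = KV_m(S[G])`, `m = n + 1 ≥ 1` (`kvI S n`),
the higher K-theory of Karoubi and Villamayor, not tensored with `ℚ`. Then:

* the coinvariants of `K(N)` embed in `K(N ⋊ Γ)` modulo `K(Γ)` up to the orders of the finite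
  subgroups of `Γ` (`CoinvariantsEmbed`);
* the kernel of every natural transformation from a functor `H` to `K`, for instance of the assembly
  map, is generated by the kernels for `Γ` and for the parts of `N`, up to the same orders
  (`KernelFormulaOver`);
* for torsion-free `Γ` the parts of `K(N)` belonging to different orbits of finite subsets of `X` are
  independent in `K(N ⋊ Γ)` (`OrbitsIndependent`);
* let `C` be an invariant set of finite subsets of `X`, closed under subsets, with finite parts
  `N_T`, `T ∈ C` (for instance, `N` the graph product of copies of a finite group and `C` the finite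
  cliques). The map from the colimit of the groups `K(H)` over the finite subgroups `H` of `N ⋊ Γ` to
  `K(N ⋊ Γ)` is injective on the part of the colimit given by the groups `N_T`, up to the orders of the
  finite subgroups of `Γ`, and modulo `K(Γ)`; if every finite subgroup of `N ⋊ Γ` is conjugate into
  some `N_T`, it is injective (`ColimitEmbeds`).

`KVz ℤ n A` is `KV_{n+1}(A)`: it has the generators `[u]` for the invertible matrices `u` over
`A[X₁, …, X_n]` which are congruent to the identity modulo the ideal of the `n`-fold loops (the
polynomials which vanish if some `X_i` is `0` or `1`), and the relations `[u v] = [u] + [v]`,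
`[u'] = [u]` for the stabilizations `u'` of `u`, and `[h(1)] = 0` for the invertible matrices `h` over
`A[t][X₁, …, X_n]` congruent to the identity modulo this ideal with `h(0) = 1`. For regular rings it is
Quillen's `K_{n+1}(A)`.

The new ingredient is an integral transfer for the functors `KV_m(S[-])`: for an action of `G` on a
set `A` and two cocycles `c, d : G × A → K` which agree outside finite sets, an invertible matrix `u`
over `S[G]` acts in two ways on the free module with basis `A` over `S[K]`, by the monomial matrices
of `c` and of `d`, and the ratio of these two infinite matrices differs from the identity in finitely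
many entries. The class of this finite matrix is additive in `u` since it does not change under the
conjugation by an infinite matrix.
-/

namespace Pool.Agent.Results.MP_f7db47_al.HigherFiniteSubgroups

open Pool.Agent.Q183.SN Pool.Agent.Y477.IW Pool.Agent.Q171.KV CategoryTheory

theorem result (Γ X : Type) [Group Γ] [MulAction Γ X]
    (hst : ∀ v : X, Finite (MulAction.stabilizer Γ v)) :
    (∀ (S : Type) [Ring S] (n : ℕ) (N : Type) [Group N] (φ : Γ →* MulAut N) (us : USupp φ X),
      (∀ m : ℕ, (∀ K : Subgroup Γ, Finite K → Nat.card K ∣ m) →
        CoinvariantsEmbed (kvI S n) φ m ∧ KernelFormulaOver (kvI S n) us m) ∧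
      ((∀ g : Γ, g ≠ 1 → ¬ IsOfFinOrder g) → OrbitsIndependent (kvI S n) us) ∧
      ∀ C : Set (Finset X), IsFamily Γ C → (∀ T ∈ C, Finite (us.part (T : Set X))) →
        ColimitEmbeds (innerTrivial_kv S n) us C) ∧
    ∀ (P : Type) [Group P] (Λ : SimpleGraph X),
      (∀ (γ : Γ) (u v : X), Λ.Adj u v → Λ.Adj (γ • u) (γ • v)) → HasRetractions Γ P Λ :=
  ⟨fun S _ n _ _ _ us =>
    ⟨fun m hm => ⟨coinvariantsEmbed_g us (keyProp_g us (hasPTI_kv S n) hst) (contG_kv S n) hst m hm,
      kernelFormulaOver_g us (keyProp_g us (hasPTI_kv S n) hst) hst m hm⟩,
    fun htf => orbitsIndependent_g us (keyProp_g us (hasPTI_kv S n) hst) hst (finite_eq_bot htf),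
    fun _ hC hfin => colimitEmbeds_of us (innerTrivial_kv S n)
      (keyProp_g us (hasPTI_kv S n) hst) hst hC hfin⟩,
    fun P _ Λ hΛ => hasRetractions Γ P Λ hΛ⟩

end Pool.Agent.Results.MP_f7db47_al.HigherFiniteSubgroups
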