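import Pool.Agent.Q30.IMG.Exp

/-!
# Iterated monodromy groups of expanding partial self-coverings are Farrell–Jones groups

`C` is any class of groups with the closure properties `Closed C`, all of which are known for the
class of the groups that satisfy the K-theoretic Farrell–Jones conjecture with coefficients and
finite wreath products; every torsion-free group in that class has trivial Whitehead group.

`f : M₁ → M` is a covering map from a subspace `M₁` of the path-connected metric space `M` onto `M`
(for instance a hyperbolic rational function on the complement of a neighbourhood of the closure of
the postcritical set, whose fundamental group is free). The iterated monodromy group of `f` is the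
quotient of `π₁(M, t)` by the kernel of its action by monodromy on the tree of the inverse images
of `t` under the iterates of `f`; a loop is in the kernel if all its lifts, of all levels, are closed.

Outline of the proof. Chosen paths in `M` from `t` to the points of `f⁻¹(t)` give a wreath recursion
from `π₁(M, t)` to its wreath product with the symmetric group of `f⁻¹(t)`. A loop is in
the kernel of the `n`-th iterate of the recursion if and only if all its lifts of level `n` are
closed and null-homotopic in `M`. Since `f` is expanding the lifts of a loop in the kernel of the
action become short, hence null-homotopic. So the iterated monodromy group is the directed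
colimit of groups that embed in iterated wreath products of `π₁(M, t)`.
-/

set_option autoImplicit false

namespace Pool.Agent.Results.MP_f7db47_al.IteratedMonodromy

open Pool.Agent.Y462.SS (Closed)
open Q30.IMG (LiftN Expanding SmallLoops)

/-- Let `C` be a class of groups with the closure properties `Closed C`, let `M` be a path-connected
metric space in which short loops are null-homotopic, and let `f : M₁ → M`, `M₁` a subspace of `M`,
be a covering map which is expanding: lifting contracts the diameters of short paths by a uniform
factor. Let `t` be a point with finitely many preimages. If the fundamental group `π₁(M, t)` is in
`C`, then the classes of the loops all whose lifts along all iterates of `f` are closed form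
a normal subgroup `K`, and the iterated monodromy group `π₁(M, t) ⧸ K` of `f` is in `C`. -/
theorem result (C : ∀ (G : Type) [Group G], Prop) (hC : Closed C)
    (M : Type) [MetricSpace M] [PathConnectedSpace M] (hM : SmallLoops M)
    (M₁ : Set M) (f : M₁ → M) (cov : IsCoveringMap f) (hf : Expanding f)
    (t : M) (ht : (f ⁻¹' {t}).Finite) (hπ : C (FundamentalGroup M t)) :
    ∃ (K : Subgroup (FundamentalGroup M t)) (_ : K.Normal),
      (∀ γ : Path t t, FundamentalGroup.fromPath (Path.Homotopic.Quotient.mk γ) ∈ K ↔
        ∀ (n : ℕ) (b : C(unitInterval, M)),
          LiftN f n b (γ : C(unitInterval, M)) → b 0 = b 1) ∧
      C (FundamentalGroup M t ⧸ K) :=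
  Q30.IMG.img hC cov t ht hf hM hπ

end Pool.Agent.Results.MP_f7db47_al.IteratedMonodromy
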