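import Pool.Agent.Q182.RcAb

/-!
# Groups acting on trees: homomorphisms whose kernels meet the edge stabilizers centrally

`C` is any class of groups which contains the metabelian groups and has the closure properties
`ClosedA C`: the usual closure properties `ClosedE C` and closure under acylindrical actions on
trees. All of this is known for the class of the groups which satisfy the K-theoretic Farrell–Jones
conjecture with additive category coefficients and finite wreath products (solvable groups: Wegner,
acylindrical actions: Knopf).

Let `G` act without inversions on a tree and let `ρ` be a homomorphism from `G` to a group in `C`, with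
kernel `R`. We show that `G` is in `C` if the vertex stabilizers are in `C` and `R ∩ G_e` is central in
`R ∩ G_v` for every edge `e` at a vertex `v`. In particular `G` is in `C` if all the groups `R ∩ G_v`
are commutative; no assumption on the vertex stabilizers is needed then. For trivial `ρ` the second
statement is the theorem of Gandini, Meinert and Rüping on graphs of abelian groups, and the first one
is our `MP_e40716_gt.CentralEdges`; for `R ∩ G_e = 1` the first one is our
`MP_2a0850_gt.EdgeInjectiveTrees`.

Outline of the proof. By the extension criterion the target can be replaced by a cyclic group, and
the case of a finite cyclic group reduces to `R`. So let `ρ` be a homomorphism to the integers. Let `N`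
be the subgroup generated by the groups `R ∩ G_e`. Then `G ⧸ N` acts on the tree `T ⧸ N`, and `ρ` is
injective on the edge stabilizers of this action. So they are cyclic, and powers of an element of
infinite order in one of them are conjugate only if the exponents are equal. We prove a fibered version
of our theorem on trees with balanced virtually cyclic edge stabilizers
(`MP_5d3e93_al.CyclicEdges`), by means of the tree of cylinders; it reduces the claim to the preimages
in `G` of the vertex stabilizers and of the commutative subgroups of `G ⧸ N`. For the latter one
divides by `[N, N]`, which meets the vertex stabilizers trivially. The former are `G_v N`, and one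
divides by `[N, R_v N]`; the quotient is generated by `G_v` and a commutative normal subgroup which
commutes with `R_v`, and its quotient by `R_v` is metabelian.
-/

set_option autoImplicit false

namespace Pool.Agent.Results.MP_f7db47_al.RelativeCentralEdges

open Q182.Cyl (ClosedA)

/-- Let `C` be a class of groups with the closure properties `ClosedA C` which contains all
metabelian groups. Let `G` be a group acting without inversions on a tree and let `ρ` be a homomorphism
from `G` to a group `D` in `C`.

(1) Suppose that all vertex stabilizers are in `C` and that for every edge `{v, w}` each element of
the kernel of `ρ` which fixes `v` and `w` commutes with each element of the kernel which fixes `v`.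
Then `G` is in `C`.

(2) Suppose that for every vertex `v` any two elements of the kernel of `ρ` which fix `v` commute. Then
`G` is in `C`. -/
theorem result (C : ∀ (G : Type) [Group G], Prop) (hC : ClosedA C)
    (hmet : ∀ (G : Type) [Group G], derivedSeries G 2 = ⊥ → C G)
    (G D V : Type) [Group G] [Group D] [MulAction G V] (T : SimpleGraph V) (hT : T.IsTree)
    (hadj : ∀ (g : G) (v w : V), T.Adj v w → T.Adj (g • v) (g • w))
    (hinv : ∀ (g : G) (v w : V), T.Adj v w → ¬ (g • v = w ∧ g • w = v))
    (ρ : G →* D) (hD : C D) :
    ((∀ v : V, C (MulAction.stabilizer G v)) →
      (∀ v w : V, T.Adj v w → ∀ s : G, ρ s = 1 → s • v = v → s • w = w →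
        ∀ g : G, ρ g = 1 → g • v = v → g * s = s * g) → C G) ∧
    ((∀ (v : V) (a b : G), ρ a = 1 → ρ b = 1 → a • v = v → b • v = v → a * b = b * a) → C G) :=
  ⟨fun hst hce => Q182.Rc.main hC hmet ⟨hT, hadj, hinv⟩ ρ hD hce hst,
    fun hab => Q182.Rc.main_ab hC hmet ⟨hT, hadj, hinv⟩ ρ hD hab⟩

end Pool.Agent.Results.MP_f7db47_al.RelativeCentralEdges
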